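import Pool.Agent.H951R3.V.V4

set_option autoImplicit false

/-!
Local heights with respect to the coordinate hyperplanes and the truncated counting function.
-/

namespace Pool.Agent.H951R3.V

open NumberField IsDedekindDomain Height Pool.Agent.H691R3

variable {K : Type*} [Field K] [NumberField K]

/-- a real finite sum of logarithms `log (sup / x i)` is positive iff the `x i` are not all equal -/
lemma sum_log_pos_iff {n : ℕ} (a : Fin n → ℝ) (ha : ∀ i, 0 < a i) :
    0 < ∑ i, Real.log ((⨆ j, a j) / a i) ↔ ∃ i j, a i ≠ a j := by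
  have hbdd : BddAbove (Set.range a) := Set.finite_range a |>.bddAbove
  have hle : ∀ i, a i ≤ ⨆ j, a j := fun i => le_ciSup hbdd i
  have hnn : ∀ i, 0 ≤ Real.log ((⨆ j, a j) / a i) := fun i =>
    Real.log_nonneg ((one_le_div (ha i)).mpr (hle i))
  constructor
  · intro h
    by_contra hcon
    push Not at hcon
    have : ∑ i, Real.log ((⨆ j, a j) / a i) = 0 := by
      refine Finset.sum_eq_zero fun i _ => ?_
      have h1 : (⨆ j, a j) = a i := by
        have : Nonempty (Fin n) := ⟨i⟩
        refine le_antisymm (ciSup_le fun j => (hcon j i).le) (hle i)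
      rw [h1, div_self (ha i).ne', Real.log_one]
    rw [this] at h
    exact lt_irrefl _ h
  · rintro ⟨i, j, hij⟩
    rcases lt_or_gt_of_ne hij with h | h
    · refine lt_of_lt_of_le ?_ (Finset.single_le_sum (fun k _ => hnn k) (Finset.mem_univ i))
      exact Real.log_pos ((one_lt_div (ha i)).mpr (h.trans_le (hle j)))
    · refine lt_of_lt_of_le ?_ (Finset.single_le_sum (fun k _ => hnn k) (Finset.mem_univ j))
      exact Real.log_pos ((one_lt_div (ha j)).mpr (h.trans_le (hle i)))

/-- from bounded finite subsets to finiteness and cardinality -/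
lemma ncard_le_of_finset {α : Type*} (V : Set α) (b : ℝ) (hb : 0 ≤ b)
    (h : ∀ E : Finset α, (E : Set α) ⊆ V → (E.card : ℝ) ≤ b) :
    V.Finite ∧ (V.ncard : ℝ) ≤ b := by
  have hfin : V.Finite := by
    by_contra hinf
    obtain ⟨E, hEV, hEc⟩ := Set.Infinite.exists_subset_card_eq hinf (⌊b⌋₊ + 1)
    have h1 := h E hEV
    have h2 := Nat.lt_floor_add_one b
    rw [hEc] at h1
    push_cast at h1
    linarith
  refine ⟨hfin, ?_⟩
  rw [Set.ncard_eq_toFinset_card V hfin]
  exact h hfin.toFinset (by rw [Set.Finite.coe_toFinset])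

end Pool.Agent.H951R3.V
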