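import Mathlib

set_option autoImplicit false

/-!
Counting units of bounded height: at most `C exp (δ Y)` units of logarithmic height `≤ Y`.
-/

namespace Pool.Agent.H951R3.V

open NumberField IsDedekindDomain Height NumberField.Units

/-- `(2 Y + 2) ^ r ≤ C exp (δ Y)` -/
lemma poly_le_exp (r : ℕ) {δ : ℝ} (hδ : 0 < δ) :
    ∃ C : ℝ, 0 < C ∧ ∀ Y : ℝ, 0 ≤ Y → (2 * Y + 2) ^ r ≤ C * Real.exp (δ * Y) := by
  set s : ℝ := (r : ℝ) + 1 with hs
  have hs0 : 0 < s := by positivity
  refine ⟨(2 * s / δ + 2) ^ r, by positivity, fun Y hY => ?_⟩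
  have h1 : 2 * Y + 2 ≤ (2 * s / δ + 2) * Real.exp (δ * Y / s) := by
    have h2 := Real.add_one_le_exp (δ * Y / s)
    have h3 : 0 ≤ δ * Y / s := by positivity
    have h4 : 2 * Y = 2 * s / δ * (δ * Y / s) := by
      field_simp
    calc 2 * Y + 2 = 2 * s / δ * (δ * Y / s) + 2 := by rw [← h4]
      _ ≤ 2 * s / δ * Real.exp (δ * Y / s) + 2 * Real.exp (δ * Y / s) := by
        refine add_le_add (mul_le_mul_of_nonneg_left (by linarith) (by positivity)) (by linarith)
      _ = (2 * s / δ + 2) * Real.exp (δ * Y / s) := by ring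
  calc (2 * Y + 2) ^ r ≤ ((2 * s / δ + 2) * Real.exp (δ * Y / s)) ^ r :=
        pow_le_pow_left₀ (by positivity) h1 r
    _ = (2 * s / δ + 2) ^ r * Real.exp (δ * Y / s) ^ r := by rw [mul_pow]
    _ ≤ (2 * s / δ + 2) ^ r * Real.exp (δ * Y) := by
        refine mul_le_mul_of_nonneg_left ?_ (by positivity)
        rw [← Real.exp_nat_mul]
        refine Real.exp_le_exp.mpr ?_
        have h5 : 0 ≤ δ * Y := by positivity
        have h6 : (r : ℝ) * (δ * Y / s) = (r : ℝ) / s * (δ * Y) := by ring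
        rw [h6]
        have h7 : (r : ℝ) / s ≤ 1 := by
          rw [div_le_one hs0]; linarith
        nlinarith

variable (K : Type*) [Field K] [NumberField K]

theorem unit_count {δ : ℝ} (hδ : 0 < δ) :
    ∃ C : ℝ, 0 < C ∧ ∀ Y : ℝ, 0 ≤ Y → ∀ E : Finset (𝓞 K)ˣ,
      (∀ u ∈ E, logHeight₁ ((u : 𝓞 K) : K) ≤ Y) → (E.card : ℝ) ≤ C * Real.exp (δ * Y) := by
  classical
  have hfin : {x : K | logHeight₁ x ≤ 1}.Finite := finite_setOfPred_logHeight₁_le K 1
  obtain ⟨C, hC, hCY⟩ := poly_le_exp (rank K) hδ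
  have hinj : Function.Injective (fun u : (𝓞 K)ˣ => ((u : 𝓞 K) : K)) := by
    intro u v h
    exact Units.ext (RingOfIntegers.ext h)
  have := Fintype.ofFinite (torsion K)
  set A : ℕ := hfin.toFinset.card with hA
  set t : ℕ := Fintype.card (torsion K) with ht
  refine ⟨(t + 1) * (A + 1) * C, by positivity, fun Y hY E hE => ?_⟩
  set m : ℕ := ⌈2 * Y⌉₊ + 1 with hm
  have hm0 : NeZero m := ⟨by omega⟩
  have hmY : 2 * Y ≤ m := by
    have := Nat.le_ceil (2 * Y)
    rw [hm]; push_cast; linarith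
  have hmY2 : (m : ℝ) ≤ 2 * Y + 2 := by
    have := (Nat.ceil_lt_add_one (show 0 ≤ 2 * Y by positivity)).le
    rw [hm]; push_cast; linarith
  choose rep hrep _ using fun u : (𝓞 K)ˣ => exist_unique_eq_mul_prod K u
  set cls : (𝓞 K)ˣ → torsion K × (Fin (rank K) → ZMod m) :=
    fun u => ((rep u).1, fun i => ((rep u).2 i : ZMod m)) with hcls
  have hfib : ∀ a ∈ E.image cls, (E.filter (fun u => cls u = a)).card ≤ A := by
    intro a ha
    obtain ⟨u₀, hu₀, rfl⟩ := Finset.mem_image.mp ha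
    -- the root
    have hroot : ∀ u : (𝓞 K)ˣ, cls u = cls u₀ → ∃ w : (𝓞 K)ˣ, u = u₀ * w ^ m := by
      intro u hu
      simp only [hcls, Prod.mk.injEq] at hu
      have h1 : (rep u).1 = (rep u₀).1 := hu.1
      have h2 : ∀ i, (((rep u).2 i : ℤ) : ZMod m) = ((rep u₀).2 i : ZMod m) :=
        fun i => congrFun hu.2 i
      have h3 : ∀ i, ∃ k : ℤ, (rep u).2 i = (rep u₀).2 i + m * k := by
        intro i
        have h4 := (ZMod.intCast_eq_intCast_iff_dvd_sub _ _ _).mp (h2 i).symm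
        obtain ⟨k, hk⟩ := h4
        exact ⟨k, by linarith⟩
      choose k hk using h3
      refine ⟨∏ i, fundSystem K i ^ (k i), ?_⟩
      rw [hrep u, hrep u₀]
      rw [h1, mul_assoc, ← Finset.prod_pow, ← Finset.prod_mul_distrib]
      congr 1
      refine Finset.prod_congr rfl fun i _ => ?_
      rw [hk i, zpow_add, zpow_mul', zpow_natCast]
    choose! W hW using hroot
    refine Finset.card_le_card_of_injOn (fun u => (((W u : (𝓞 K)ˣ) : 𝓞 K) : K)) ?_ ?_
    · intro u hu
      rw [Finset.mem_coe, Finset.mem_filter] at hu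
      rw [Finset.mem_coe, Set.Finite.mem_toFinset]
      have h1 := hW u hu.2
      have h2 : (((W u : (𝓞 K)ˣ) : 𝓞 K) : K) ^ m =
          ((u : 𝓞 K) : K) * (((u₀ : 𝓞 K) : K))⁻¹ := by
        have h3 : ((u : 𝓞 K) : K) = ((u₀ : 𝓞 K) : K) * (((W u : (𝓞 K)ˣ) : 𝓞 K) : K) ^ m := by
          conv_lhs => rw [h1]
          push_cast
          rfl
        have h4 : ((u₀ : 𝓞 K) : K) ≠ 0 := by
          exact_mod_cast Units.ne_zero u₀
        rw [h3]
        field_simp
      have h5 : (m : ℝ) * logHeight₁ (((W u : (𝓞 K)ˣ) : 𝓞 K) : K) ≤ 2 * Y := by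
        rw [← logHeight₁_pow, h2]
        refine (logHeight₁_mul_le _ _).trans ?_
        have h6 := hE u hu.1
        have h7 := hE u₀ hu₀
        have h8 : logHeight₁ (((u₀ : 𝓞 K) : K))⁻¹ = logHeight₁ ((u₀ : 𝓞 K) : K) := by
          simp only [logHeight₁_eq_log_mulHeight₁, mulHeight₁_inv]
        rw [h8]
        linarith
      have h9 : (0 : ℝ) < m := by exact_mod_cast Nat.pos_of_ne_zero hm0.out
      show logHeight₁ (((W u : (𝓞 K)ˣ) : 𝓞 K) : K) ≤ 1
      by_contra hcon
      rw [not_le] at hcon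
      nlinarith
    · intro u hu v hv huv
      rw [Finset.mem_coe, Finset.mem_filter] at hu hv
      have h1 : W u = W v := hinj huv
      rw [hW u hu.2, hW v hv.2, h1]
  have hcard := Finset.card_le_mul_card_image_of_maps_to (s := E) (t := E.image cls)
    (f := cls) (fun u hu => Finset.mem_image_of_mem _ hu) A hfib
  have hcard2 : (E.image cls).card ≤ t * m ^ (rank K) := by
    refine (Finset.card_le_univ _).trans (le_of_eq ?_)
    rw [Fintype.card_prod, Fintype.card_fun, ZMod.card, Fintype.card_fin]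
  have h1 : (E.card : ℝ) ≤ A * (t * (m : ℝ) ^ (rank K)) := by
    have : E.card ≤ A * (t * m ^ (rank K)) :=
      hcard.trans (Nat.mul_le_mul_left _ hcard2)
    exact_mod_cast this
  refine h1.trans ?_
  have h2 : (m : ℝ) ^ (rank K) ≤ C * Real.exp (δ * Y) :=
    (pow_le_pow_left₀ (by positivity) hmY2 _).trans (hCY Y hY)
  have h3 : 0 ≤ C * Real.exp (δ * Y) := by positivity
  rw [show ((t : ℝ) + 1) * (A + 1) * C * Real.exp (δ * Y) =
    (A + 1) * ((t + 1) * (C * Real.exp (δ * Y))) by ring]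
  have hA0 : (0 : ℝ) ≤ A := Nat.cast_nonneg _
  have ht0 : (0 : ℝ) ≤ t := Nat.cast_nonneg _
  generalize (m : ℝ) ^ (rank K) = M at h2
  generalize C * Real.exp (δ * Y) = X at h2 h3
  calc (A : ℝ) * (t * M) ≤ A * (t * X) :=
        mul_le_mul_of_nonneg_left (mul_le_mul_of_nonneg_left h2 ht0) hA0
    _ ≤ (A + 1) * ((t + 1) * X) := by
        refine mul_le_mul (by linarith) ?_ (mul_nonneg ht0 h3) (by linarith)
        exact mul_le_mul_of_nonneg_right (by linarith) h3

end Pool.Agent.H951R3.V
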