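import Pool.Agent.H951R3.V.V1
import Pool.Agent.H691R3.PrimeSum
import Pool.Agent.H691R3.Places

set_option autoImplicit false

/-!
Counting `F`-units of bounded height, uniformly in the finite set of primes `F`.
-/

namespace Pool.Agent.H951R3.V

open NumberField IsDedekindDomain Height Pool.Agent.H691R3

variable {K : Type*} [Field K] [NumberField K]

/-- `log N v` -/
noncomputable def ell (v : HeightOneSpectrum (𝓞 K)) : ℝ := Real.log (Nv v)

lemma ell_pos (v : HeightOneSpectrum (𝓞 K)) : 0 < ell v := log_Nv_pos v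

lemma log_two_le_ell (v : HeightOneSpectrum (𝓞 K)) : Real.log 2 ≤ ell v := log_two_le_log_Nv v

/-- the non-archimedean part of the height -/
lemma sum_posLog_le {u : K} (hu : u ≠ 0) (F : Finset (HeightOneSpectrum (𝓞 K))) :
    ∑ v ∈ F, Real.posLog (fv v u) ≤ logHeight₁ u := by
  classical
  have hpos : ∀ y : ℝ, 0 ≤ Real.posLog y := fun y => Real.posLog_nonneg
  rw [NumberField.logHeight₁_eq]
  have h1 : ∑ᶠ w : FinitePlace K, Real.posLog (w u) =
      ∑ᶠ v : HeightOneSpectrum (𝓞 K), Real.posLog (fv v u) := by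
    rw [← finsum_comp_equiv (FinitePlace.equivHeightOneSpectrum (K := K)).symm]
    rfl
  have hfin := fv_support_finite hu
  have h2 : ∑ᶠ v : HeightOneSpectrum (𝓞 K), Real.posLog (fv v u) =
      ∑ v ∈ hfin.toFinset ∪ F, Real.posLog (fv v u) := by
    refine finsum_eq_sum_of_support_subset _ ?_
    intro v hv
    rw [Finset.coe_union, Set.Finite.coe_toFinset]
    left
    simp only [Function.mem_support, Set.mem_ofPred_eq] at hv ⊢
    intro h
    rw [h] at hv
    exact hv Real.posLog_one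
  have h3 : ∑ v ∈ F, Real.posLog (fv v u) ≤ ∑ v ∈ hfin.toFinset ∪ F, Real.posLog (fv v u) :=
    Finset.sum_le_sum_of_subset_of_nonneg Finset.subset_union_right fun v _ _ => hpos _
  have h4 : 0 ≤ ∑ w : InfinitePlace K, (w.mult : ℝ) * Real.posLog (w u) :=
    Finset.sum_nonneg fun w _ => mul_nonneg (Nat.cast_nonneg _) (hpos _)
  rw [h1, h2]
  linarith

lemma logHeight₁_inv' (u : K) : logHeight₁ u⁻¹ = logHeight₁ u := by
  simp only [logHeight₁_eq_log_mulHeight₁, mulHeight₁_inv]

lemma sum_abs_log_le {u : K} (hu : u ≠ 0) (F : Finset (HeightOneSpectrum (𝓞 K))) :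
    ∑ v ∈ F, |Real.log (fv v u)| ≤ 2 * logHeight₁ u := by
  have h1 := sum_posLog_le hu F
  have h2 := sum_posLog_le (inv_ne_zero hu) F
  rw [logHeight₁_inv'] at h2
  have h3 : ∀ v ∈ F, |Real.log (fv v u)| = Real.posLog (fv v u) + Real.posLog (fv v u⁻¹) := by
    intro v _
    have e : ∀ y : ℝ, Real.posLog y = max 0 (Real.log y) := fun y => rfl
    rw [map_inv₀, e, e, Real.log_inv]
    rcases le_total 0 (Real.log (fv v u)) with h | h
    · rw [abs_of_nonneg h, max_eq_right h, max_eq_left (by linarith)]; ring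
    · rw [abs_of_nonpos h, max_eq_left h, max_eq_right (by linarith)]; ring
  rw [Finset.sum_congr rfl h3, Finset.sum_add_distrib]
  linarith

/-- weight of a set of primes where `u` is large -/
lemma weight_le {u : K} (hu : u ≠ 0) (F : Finset (HeightOneSpectrum (𝓞 K)))
    (hF : ∀ v ∈ F, fv v u ≠ 1) : ∑ v ∈ F, ell v ≤ 2 * logHeight₁ u := by
  refine le_trans (Finset.sum_le_sum fun v hv => ?_) (sum_abs_log_le hu F)
  obtain ⟨n, hn⟩ := fv_zpow v hu
  have hlog : Real.log (fv v u) = n * ell v := by rw [hn, Real.log_zpow]; rfl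
  have hn0 : n ≠ 0 := by
    rintro rfl
    exact hF v hv (by rw [hn, zpow_zero])
  rw [hlog, abs_mul, abs_of_pos (ell_pos v)]
  have : (1 : ℝ) ≤ |(n : ℝ)| := by
    have := Int.one_le_abs hn0
    exact_mod_cast this
  nlinarith [ell_pos v]

open Classical in
/-- the integer valuation -/
noncomputable def val (v : HeightOneSpectrum (𝓞 K)) (u : K) : ℤ :=
  if hu : u ≠ 0 then (fv_zpow v hu).choose else 0

lemma fv_eq_val (v : HeightOneSpectrum (𝓞 K)) {u : K} (hu : u ≠ 0) :
    fv v u = (Nv v) ^ (val v u) := by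
  unfold val
  rw [dif_pos hu]
  exact (fv_zpow v hu).choose_spec

lemma abs_log_eq_val (v : HeightOneSpectrum (𝓞 K)) {u : K} (hu : u ≠ 0) :
    |Real.log (fv v u)| = |(val v u : ℝ)| * ell v := by
  rw [fv_eq_val v hu, Real.log_zpow, abs_mul, abs_of_pos (log_Nv_pos v)]
  rfl

lemma prod_mono_set {ι : Type*} [DecidableEq ι] {s t : Finset ι} (h : s ⊆ t) (f : ι → ℝ)
    (hf : ∀ i ∈ t, 1 ≤ f i) : ∏ i ∈ s, f i ≤ ∏ i ∈ t, f i := by
  rw [← Finset.prod_sdiff h]
  have h1 : (1 : ℝ) ≤ ∏ i ∈ t \ s, f i :=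
    Finset.one_le_prod fun i hi => hf i (Finset.mem_sdiff.mp hi).1
  have h2 : 0 ≤ ∏ i ∈ s, f i := Finset.prod_nonneg fun i hi => by linarith [hf i (h hi)]
  nlinarith

lemma geom_Icc (M : ℕ) {q : ℝ} (h0 : 0 ≤ q) (h1 : q < 1) :
    ∑ k ∈ Finset.Icc (-(M : ℤ)) M, q ^ k.natAbs ≤ 2 * (1 - q)⁻¹ := by
  classical
  have hsub : Finset.Icc (-(M : ℤ)) M ⊆
      (Finset.range (M + 1)).image (fun j : ℕ => (j : ℤ)) ∪
      (Finset.range (M + 1)).image (fun j : ℕ => -(j : ℤ)) := by
    intro k hk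
    rw [Finset.mem_Icc] at hk
    rw [Finset.mem_union, Finset.mem_image, Finset.mem_image]
    rcases le_total 0 k with h | h
    · left; exact ⟨k.toNat, Finset.mem_range.mpr (by omega), by omega⟩
    · right; exact ⟨(-k).toNat, Finset.mem_range.mpr (by omega), by omega⟩
  have hgeom : ∑ j ∈ Finset.range (M + 1), q ^ j ≤ (1 - q)⁻¹ := by
    rw [← tsum_geometric_of_lt_one h0 h1]
    exact (summable_geometric_of_lt_one h0 h1).sum_le_tsum _ fun _ _ => by positivity
  calc ∑ k ∈ Finset.Icc (-(M : ℤ)) M, q ^ k.natAbs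
      ≤ ∑ k ∈ (Finset.range (M + 1)).image (fun j : ℕ => (j : ℤ)) ∪
      (Finset.range (M + 1)).image (fun j : ℕ => -(j : ℤ)), q ^ k.natAbs :=
        Finset.sum_le_sum_of_subset_of_nonneg hsub fun _ _ _ => by positivity
    _ ≤ ∑ k ∈ (Finset.range (M + 1)).image (fun j : ℕ => (j : ℤ)), q ^ k.natAbs +
      ∑ k ∈ (Finset.range (M + 1)).image (fun j : ℕ => -(j : ℤ)), q ^ k.natAbs := by
        rw [← Finset.sum_union_inter]
        have : 0 ≤ ∑ i ∈ Finset.image (fun j : ℕ => (j : ℤ)) (Finset.range (M + 1)) ∩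
            Finset.image (fun j : ℕ => -(j : ℤ)) (Finset.range (M + 1)), q ^ i.natAbs :=
          Finset.sum_nonneg fun _ _ => by positivity
        linarith
    _ = ∑ j ∈ Finset.range (M + 1), q ^ j + ∑ j ∈ Finset.range (M + 1), q ^ j := by
        rw [Finset.sum_image, Finset.sum_image]
        · simp
        · intro a _ b _ h; simpa using h
        · intro a _ b _ h; simpa using h
    _ ≤ 2 * (1 - q)⁻¹ := by linarith

/-- the primes of small norm -/
lemma small_finite (T : ℝ) : {v : HeightOneSpectrum (𝓞 K) | Nv v ≤ T}.Finite := by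
  have h := (nm_summable (K := K) (x := 2) (by norm_num)).tendsto_cofinite_zero
  by_cases hT : 0 < T
  · have h2 := h.eventually (gt_mem_nhds (show (0 : ℝ) < T ^ (-(2 : ℝ)) by positivity))
    rw [Filter.eventually_cofinite] at h2
    refine h2.subset fun v hv => ?_
    simp only [Set.mem_ofPred_eq, not_lt] at hv ⊢
    refine Real.rpow_le_rpow_of_nonpos ?_ ?_ (by norm_num)
    · have := two_le_Nv v
      show (0 : ℝ) < (Ideal.absNorm v.asIdeal : ℝ)
      unfold Nv at this; linarith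
    · exact hv
  · convert Set.finite_empty
    ext v
    simp only [Set.mem_ofPred_eq, Set.mem_empty_iff_false, iff_false, not_le]
    have := two_le_Nv v
    linarith

/-- counting vectors of valuations -/
lemma vec_count {δ : ℝ} (hδ : 0 < δ) :
    ∃ C : ℝ, 0 < C ∧ ∀ (F : Finset (HeightOneSpectrum (𝓞 K))) (Y : ℝ), 0 ≤ Y →
      ∀ V : Finset (F → ℤ), (∀ a ∈ V, ∑ v : F, |(a v : ℝ)| * ell v.1 ≤ Y) →
        (V.card : ℝ) ≤ C * Real.exp (δ * (Y + ∑ v ∈ F, ell v)) := by
  classical
  have hsm := small_finite (K := K) (Real.exp (Real.log 3 / δ))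
  set q : HeightOneSpectrum (𝓞 K) → ℝ := fun v => Real.exp (-(δ * ell v)) with hq
  have hq0 : ∀ v, 0 < q v := fun v => Real.exp_pos _
  have hq1 : ∀ v, q v < 1 := fun v => by
    rw [hq]
    simp only
    rw [← Real.exp_zero]
    exact Real.exp_lt_exp.mpr (by have := ell_pos v; nlinarith)
  set c : HeightOneSpectrum (𝓞 K) → ℝ := fun v => 2 * (1 - q v)⁻¹ with hc
  have hc1 : ∀ v, 1 ≤ c v := by
    intro v
    have h1 : 1 ≤ (1 - q v)⁻¹ := by
      rw [one_le_inv₀ (by linarith [hq1 v])]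
      linarith [hq0 v]
    rw [hc]; simp only; linarith
  have hlarge : ∀ v, v ∉ hsm.toFinset → c v ≤ Real.exp (δ * ell v) := by
    intro v hv
    rw [Set.Finite.mem_toFinset, Set.mem_ofPred_eq, not_le] at hv
    have h1 : Real.log 3 ≤ δ * ell v := by
      have h2 : Real.log 3 / δ < ell v := by
        have := Real.log_lt_log (Real.exp_pos _) hv
        rwa [Real.log_exp] at this
      rw [div_lt_iff₀ hδ] at h2
      linarith
    have h3 : (3 : ℝ) ≤ Real.exp (δ * ell v) := by
      have := Real.exp_le_exp.mpr h1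
      rwa [Real.exp_log (by norm_num)] at this
    have h4 : q v ≤ 1 / 3 := by
      rw [hq]
      simp only
      rw [Real.exp_neg, ← one_div]
      exact one_div_le_one_div_of_le (by norm_num) h3
    have h5 : (1 - q v)⁻¹ ≤ 3 / 2 := by
      rw [inv_le_comm₀ (by linarith) (by norm_num)]
      linarith
    rw [hc]; simp only; linarith
  refine ⟨∏ v ∈ hsm.toFinset, c v, Finset.prod_pos fun v _ => by linarith [hc1 v],
    fun F Y hY V hV => ?_⟩
  set M : ℕ := ⌈Y / Real.log 2⌉₊ with hM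
  have hlog2 : 0 < Real.log 2 := Real.log_pos (by norm_num)
  have hbox : V ⊆ Fintype.piFinset (fun _ : F => Finset.Icc (-(M : ℤ)) M) := by
    intro a ha
    rw [Fintype.mem_piFinset]
    intro v
    have h1 : |(a v : ℝ)| * ell v.1 ≤ Y :=
      (Finset.single_le_sum (f := fun v : F => |(a v : ℝ)| * ell v.1)
        (fun v _ => mul_nonneg (abs_nonneg _) (ell_pos v.1).le) (Finset.mem_univ v)).trans (hV a ha)
    have h2 : |(a v : ℝ)| ≤ M := by
      have h3 : |(a v : ℝ)| * Real.log 2 ≤ Y :=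
        (mul_le_mul_of_nonneg_left (log_two_le_ell v.1) (abs_nonneg _)).trans h1
      have h4 : |(a v : ℝ)| ≤ Y / Real.log 2 := by rwa [le_div_iff₀ hlog2]
      exact h4.trans (Nat.le_ceil _)
    have h5 : |a v| ≤ (M : ℤ) := by exact_mod_cast h2
    rw [Finset.mem_Icc]
    exact abs_le.mp h5
  have hterm : ∀ a : F → ℤ, ∏ v : F, (q v.1) ^ (a v).natAbs =
      Real.exp (-(δ * ∑ v : F, |(a v : ℝ)| * ell v.1)) := by
    intro a
    rw [Finset.mul_sum, ← Finset.sum_neg_distrib, Real.exp_sum]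
    refine Finset.prod_congr rfl fun v _ => ?_
    rw [hq]
    simp only
    rw [← Real.exp_nat_mul, Nat.cast_natAbs, Int.cast_abs]
    congr 1
    ring
  calc (V.card : ℝ) = ∑ a ∈ V, (1 : ℝ) := by simp
    _ ≤ ∑ a ∈ V, Real.exp (δ * Y) * ∏ v : F, (q v.1) ^ (a v).natAbs := by
        refine Finset.sum_le_sum fun a ha => ?_
        rw [hterm a, ← Real.exp_add]
        refine Real.one_le_exp ?_
        have := mul_le_mul_of_nonneg_left (hV a ha) hδ.le
        linarith
    _ ≤ ∑ a ∈ Fintype.piFinset (fun _ : F => Finset.Icc (-(M : ℤ)) M),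
          Real.exp (δ * Y) * ∏ v : F, (q v.1) ^ (a v).natAbs :=
        Finset.sum_le_sum_of_subset_of_nonneg hbox fun a _ _ => by
          have := Finset.prod_nonneg (s := Finset.univ) (f := fun v : F => (q v.1) ^ (a v).natAbs)
            fun v _ => pow_nonneg (hq0 v.1).le _
          positivity
    _ = Real.exp (δ * Y) * ∏ v : F, ∑ k ∈ Finset.Icc (-(M : ℤ)) M, (q v.1) ^ k.natAbs := by
        rw [← Finset.mul_sum, Finset.prod_univ_sum]
    _ ≤ Real.exp (δ * Y) * ∏ v : F, c v.1 := by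
        refine mul_le_mul_of_nonneg_left ?_ (Real.exp_pos _).le
        refine Finset.prod_le_prod (fun v _ => Finset.sum_nonneg fun k _ =>
          pow_nonneg (hq0 v.1).le _) fun v _ => ?_
        exact geom_Icc M (hq0 v.1).le (hq1 v.1)
    _ = Real.exp (δ * Y) * ∏ v ∈ F, c v := by
        rw [← Finset.prod_coe_sort F c]
    _ ≤ Real.exp (δ * Y) * ((∏ v ∈ hsm.toFinset, c v) * Real.exp (δ * ∑ v ∈ F, ell v)) := by
        refine mul_le_mul_of_nonneg_left ?_ (Real.exp_pos _).le
        have h1 : ∏ v ∈ F, c v =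
            (∏ v ∈ F.filter (fun v => v ∈ hsm.toFinset), c v) *
            (∏ v ∈ F.filter (fun v => ¬ v ∈ hsm.toFinset), c v) :=
          (Finset.prod_filter_mul_prod_filter_not _ _ _).symm
        rw [h1]
        refine mul_le_mul ?_ ?_ (Finset.prod_nonneg fun v _ => by linarith [hc1 v])
          (Finset.prod_nonneg fun v _ => by linarith [hc1 v])
        · refine prod_mono_set ?_ _ fun v _ => hc1 v
          intro v hv
          exact (Finset.mem_filter.mp hv).2
        · rw [Finset.mul_sum, Real.exp_sum]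
          calc ∏ v ∈ F.filter (fun v => ¬ v ∈ hsm.toFinset), c v
              ≤ ∏ v ∈ F.filter (fun v => ¬ v ∈ hsm.toFinset), Real.exp (δ * ell v) :=
                Finset.prod_le_prod (fun v _ => by linarith [hc1 v])
                  fun v hv => hlarge v (Finset.mem_filter.mp hv).2
            _ ≤ ∏ v ∈ F, Real.exp (δ * ell v) :=
                prod_mono_set (Finset.filter_subset _ _) _
                  fun v _ => Real.one_le_exp (by have := ell_pos v; positivity)
    _ = (∏ v ∈ hsm.toFinset, c v) * Real.exp (δ * (Y + ∑ v ∈ F, ell v)) := by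
        rw [mul_add, Real.exp_add]; ring

/-- an element all of whose finite absolute values are one is a unit -/
lemma exists_unit {u : K} (hu : u ≠ 0) (h : ∀ v : HeightOneSpectrum (𝓞 K), fv v u = 1) :
    ∃ w : (𝓞 K)ˣ, ((w : 𝓞 K) : K) = u := by
  have hint : ∀ x : K, (∀ v : HeightOneSpectrum (𝓞 K), fv v x ≤ 1) → ∃ a : 𝓞 K, (a : K) = x := by
    intro x hx
    have h1 : ∀ v : HeightOneSpectrum (𝓞 K), v.valuation K x ≤ 1 := by
      intro v
      have h2 : fv v x = _ := NumberField.FinitePlace.norm_embedding' (v := v) (x := x)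
      have h3 := hx v
      rw [h2] at h3
      exact (WithZeroMulInt.toNNReal_le_one_iff
        (NumberField.HeightOneSpectrum.one_lt_absNorm_nnreal v)).mp (by exact_mod_cast h3)
    obtain ⟨a, ha⟩ := HeightOneSpectrum.mem_integers_of_valuation_le_one K x h1
    exact ⟨a, ha⟩
  obtain ⟨a, ha⟩ := hint u fun v => (h v).le
  obtain ⟨b, hb⟩ := hint u⁻¹ fun v => by rw [map_inv₀, h v, inv_one]
  have e1 : (a : K) * (b : K) = 1 := by rw [ha, hb, mul_inv_cancel₀ hu]
  have e2 : a * b = 1 := by exact_mod_cast e1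
  exact ⟨⟨a, b, e2, by rw [mul_comm]; exact e2⟩, ha⟩

/-- counting `F`-units -/
theorem funit_count {δ : ℝ} (hδ : 0 < δ) :
    ∃ C : ℝ, 0 < C ∧ ∀ (F : Finset (HeightOneSpectrum (𝓞 K))) (Y : ℝ), 0 ≤ Y →
      ∀ E : Finset K, (∀ u ∈ E, u ≠ 0 ∧ logHeight₁ u ≤ Y ∧ ∀ v, v ∉ F → fv v u = 1) →
        (E.card : ℝ) ≤ C * Real.exp (δ * (Y + ∑ v ∈ F, ell v)) := by
  classical
  obtain ⟨C1, hC1, h1⟩ := vec_count (K := K) (δ := δ / 4) (by positivity)
  obtain ⟨C2, hC2, h2⟩ := unit_count K (δ := δ / 4) (by positivity)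
  refine ⟨C1 * (C2 + 1), by positivity, fun F Y hY E hE => ?_⟩
  have hw : 0 ≤ ∑ v ∈ F, ell v := Finset.sum_nonneg fun v _ => (ell_pos v).le
  set V : K → (F → ℤ) := fun u v => val v.1 u with hV
  -- image
  have himg : ((E.image V).card : ℝ) ≤ C1 * Real.exp (δ / 4 * (2 * Y + ∑ v ∈ F, ell v)) := by
    refine h1 F (2 * Y) (by positivity) (E.image V) ?_
    intro a ha
    obtain ⟨u, hu, rfl⟩ := Finset.mem_image.mp ha
    obtain ⟨hu0, huY, _⟩ := hE u hu
    have h3 : ∑ v : F, |(V u v : ℝ)| * ell v.1 = ∑ v ∈ F, |Real.log (fv v u)| := by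
      rw [← Finset.sum_coe_sort F (fun v => |Real.log (fv v u)|)]
      refine Finset.sum_congr rfl fun v _ => ?_
      rw [abs_log_eq_val v.1 hu0]
    rw [h3]
    have h4 := sum_abs_log_le hu0 F
    linarith
  -- fibres
  set G : ℕ := ⌊C2 * Real.exp (δ / 4 * (2 * Y))⌋₊ with hG
  have hfib : ∀ a ∈ E.image V, (E.filter (fun u => V u = a)).card ≤ G := by
    intro a ha
    obtain ⟨u₀, hu₀, rfl⟩ := Finset.mem_image.mp ha
    obtain ⟨hu00, hu0Y, hu0F⟩ := hE u₀ hu₀
    have hex : ∀ u ∈ E.filter (fun u => V u = V u₀), ∃ w : (𝓞 K)ˣ, ((w : 𝓞 K) : K) = u / u₀ := by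
      intro u hu
      rw [Finset.mem_filter] at hu
      obtain ⟨hu0, huY, huF⟩ := hE u hu.1
      refine exists_unit (div_ne_zero hu0 hu00) fun v => ?_
      rw [map_div₀]
      by_cases hv : v ∈ F
      · have h3 : val v u = val v u₀ := congrFun hu.2 ⟨v, hv⟩
        rw [fv_eq_val v hu0, fv_eq_val v hu00, h3]
        refine div_self (zpow_ne_zero _ ?_)
        linarith [two_le_Nv v]
      · rw [huF v hv, hu0F v hv, div_one]
    choose! W hW using hex
    have h5 := h2 (2 * Y) (by positivity) ((E.filter (fun u => V u = V u₀)).image W) ?_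
    · rw [Finset.card_image_of_injOn] at h5
      · exact Nat.le_floor h5
      · intro u hu u' hu' huu
        have e1 := hW u hu
        have e2 := hW u' hu'
        rw [huu, e2] at e1
        exact ((div_left_inj' hu00).mp e1).symm
    · intro w hw
      obtain ⟨u, hu, rfl⟩ := Finset.mem_image.mp hw
      rw [hW u hu, div_eq_mul_inv]
      refine (logHeight₁_mul_le _ _).trans ?_
      rw [logHeight₁_inv']
      have h6 := (hE u (Finset.mem_filter.mp hu).1).2.1
      linarith
  have hcard := Finset.card_le_mul_card_image_of_maps_to (s := E) (t := E.image V)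
    (f := V) (fun u hu => Finset.mem_image_of_mem _ hu) G hfib
  have hG2 : (G : ℝ) ≤ C2 * Real.exp (δ / 4 * (2 * Y)) := Nat.floor_le (by positivity)
  calc (E.card : ℝ) ≤ (G : ℝ) * ((E.image V).card : ℝ) := by exact_mod_cast hcard
    _ ≤ (C2 * Real.exp (δ / 4 * (2 * Y))) *
        (C1 * Real.exp (δ / 4 * (2 * Y + ∑ v ∈ F, ell v))) :=
        mul_le_mul hG2 himg (Nat.cast_nonneg _) (by positivity)
    _ = (C1 * C2) * Real.exp (δ / 4 * (2 * Y) + δ / 4 * (2 * Y + ∑ v ∈ F, ell v)) := by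
        rw [Real.exp_add]; ring
    _ ≤ (C1 * (C2 + 1)) * Real.exp (δ * (Y + ∑ v ∈ F, ell v)) := by
        refine mul_le_mul ?_ (Real.exp_le_exp.mpr ?_) (Real.exp_pos _).le (by positivity)
        · nlinarith
        · nlinarith

end Pool.Agent.H951R3.V
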