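import Pool.Agent.H951R3.V.V2

set_option autoImplicit false

/-!
The core counting theorem: tuples `x` with `x 0 = 1`, vanishing sum and non-vanishing initial sums,
whose primes outside a set `U x` of bounded weight are final segment primes.
-/

namespace Pool.Agent.H951R3.V

open NumberField IsDedekindDomain Height Pool.Agent.H691R3

variable {K : Type*} [Field K] [NumberField K]

/-- counting finite sets of primes of bounded weight -/
lemma set_count {δ : ℝ} (hδ : 0 < δ) :
    ∃ C : ℝ, 0 < C ∧ ∀ (G : ℝ) (V : Finset (Finset (HeightOneSpectrum (𝓞 K)))),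
      (∀ U ∈ V, ∑ v ∈ U, ell v ≤ G) → (V.card : ℝ) ≤ C * Real.exp ((1 + δ) * G) := by
  classical
  refine ⟨ZK K (1 + δ) + 1, ?_, fun G V hV => ?_⟩
  · have h := prod_one_add_le (K := K) (x := 1 + δ) (by linarith) ∅
    simp only [Finset.prod_empty] at h
    linarith
  have hterm : ∀ U : Finset (HeightOneSpectrum (𝓞 K)),
      ∏ v ∈ U, (nm v : ℝ) ^ (-(1 + δ)) = Real.exp (-((1 + δ) * ∑ v ∈ U, ell v)) := by
    intro U
    rw [Finset.mul_sum, ← Finset.sum_neg_distrib, Real.exp_sum]
    refine Finset.prod_congr rfl fun v _ => ?_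
    have h2 : (0 : ℝ) < nm v := by
      have := two_le_nm v
      exact_mod_cast (by omega : 0 < nm v)
    rw [Real.rpow_def_of_pos h2]
    congr 1
    have : Real.log (nm v : ℝ) = ell v := rfl
    rw [this]
    ring
  calc (V.card : ℝ) = ∑ U ∈ V, (1 : ℝ) := by simp
    _ ≤ ∑ U ∈ V, Real.exp ((1 + δ) * G) * ∏ v ∈ U, (nm v : ℝ) ^ (-(1 + δ)) := by
        refine Finset.sum_le_sum fun U hU => ?_
        rw [hterm U, ← Real.exp_add]
        refine Real.one_le_exp ?_
        have := mul_le_mul_of_nonneg_left (hV U hU) (show 0 ≤ 1 + δ by linarith)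
        linarith
    _ ≤ ∑ U ∈ (V.biUnion id).powerset,
          Real.exp ((1 + δ) * G) * ∏ v ∈ U, (nm v : ℝ) ^ (-(1 + δ)) := by
        refine Finset.sum_le_sum_of_subset_of_nonneg ?_ fun U _ _ => by positivity
        intro U hU
        exact Finset.mem_powerset.mpr (Finset.subset_biUnion_of_mem id hU)
    _ = Real.exp ((1 + δ) * G) * ∏ v ∈ V.biUnion id, (1 + (nm v : ℝ) ^ (-(1 + δ))) := by
        rw [← Finset.mul_sum, Finset.prod_one_add]
    _ ≤ Real.exp ((1 + δ) * G) * (ZK K (1 + δ) + 1) := by
        refine mul_le_mul_of_nonneg_left ?_ (Real.exp_pos _).le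
        have := prod_one_add_le (K := K) (x := 1 + δ) (by linarith) (V.biUnion id)
        linarith
    _ = (ZK K (1 + δ) + 1) * Real.exp ((1 + δ) * G) := mul_comm _ _

lemma sum_biUnion_le' {ι α : Type*} [DecidableEq ι] [DecidableEq α] (s : Finset ι)
    (t : ι → Finset α) (f : α → ℝ) (hf : ∀ a, 0 ≤ f a) :
    ∑ a ∈ s.biUnion t, f a ≤ ∑ i ∈ s, ∑ a ∈ t i, f a := by
  induction s using Finset.induction_on with
  | empty => simp
  | insert i s hi ih =>
    rw [Finset.biUnion_insert, Finset.sum_insert hi]
    have h1 : ∑ a ∈ t i ∪ s.biUnion t, f a ≤ ∑ a ∈ t i, f a + ∑ a ∈ s.biUnion t, f a := by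
      rw [← Finset.sum_union_inter]
      have : 0 ≤ ∑ a ∈ t i ∩ s.biUnion t, f a := Finset.sum_nonneg fun a _ => hf a
      linarith
    linarith

/-- the initial sums -/
def psum {n : ℕ} (x : Fin (n + 1) → K) (k : ℕ) : K :=
  ∑ i ∈ Finset.univ.filter (fun i : Fin (n + 1) => i.val < k), x i

/-- `v` behaves on `x` like a final segment prime (or is trivial) -/
def Seg {n : ℕ} (v : HeightOneSpectrum (𝓞 K)) (x : Fin (n + 1) → K) : Prop :=
  (∀ i j, fv v (x i) = fv v (x j)) ∨
    ∃ k : ℕ, ∀ i : Fin (n + 1), (∃ j, fv v (x i) < fv v (x j)) ↔ k ≤ i.val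

lemma fv_sum_lt (v : HeightOneSpectrum (𝓞 K)) {ι : Type*} (s : Finset ι) (f : ι → K) {c : ℝ}
    (hc : 0 < c) (h : ∀ i ∈ s, fv v (f i) < c) : fv v (∑ i ∈ s, f i) < c := by
  classical
  induction s using Finset.induction_on with
  | empty => simpa using hc
  | insert a s ha ih =>
    rw [Finset.sum_insert ha]
    refine (fv_na v _ _).trans_lt (max_lt (h a (Finset.mem_insert_self _ _)) (ih fun i hi => ?_))
    exact h i (Finset.mem_insert_of_mem hi)

/-- the key step: outside the known primes the new coordinate is a unit -/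
lemma coord_unit {n : ℕ} (v : HeightOneSpectrum (𝓞 K)) (x : Fin (n + 1) → K) (h0 : x 0 = 1)
    (hsum : ∑ i, x i = 0) (hseg : Seg v x) (m : Fin (n + 1))
    (hs : ∀ k : ℕ, 1 ≤ k → k ≤ m.val → fv v (psum x k) = 1) : fv v (x m) = 1 := by
  have h01 : fv v (x 0) = 1 := by rw [h0, map_one]
  rcases hseg with h | ⟨k, hk⟩
  · rw [h m 0, h01]
  · have hk0 : k ≠ 0 := by
      rintro rfl
      obtain ⟨i, _, hi⟩ := Finset.exists_max_image Finset.univ (fun i => fv v (x i))
        ⟨0, Finset.mem_univ _⟩
      obtain ⟨j, hj⟩ := (hk i).mpr (Nat.zero_le _)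
      exact absurd (hi j (Finset.mem_univ _)) (not_le.mpr hj)
    have h0A : ¬ ∃ j, fv v (x 0) < fv v (x j) := fun h => by
      have := (hk 0).mp h
      simp at this
      exact hk0 this
    push Not at h0A
    have hle : ∀ j, fv v (x j) ≤ 1 := fun j => by rw [← h01]; exact h0A j
    by_cases hmk : k ≤ m.val
    · exfalso
      have hlt : ∀ i : Fin (n + 1), k ≤ i.val → fv v (x i) < 1 := by
        intro i hi
        obtain ⟨j, hj⟩ := (hk i).mpr hi
        exact hj.trans_le (hle j)
      have h1 : psum x k = -∑ i ∈ Finset.univ.filter (fun i : Fin (n + 1) => ¬ i.val < k), x i := by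
        have h2 := Finset.sum_filter_add_sum_filter_not Finset.univ
          (fun i : Fin (n + 1) => i.val < k) x
        rw [hsum] at h2
        exact eq_neg_of_add_eq_zero_left h2
      have h3 := hs k (Nat.one_le_iff_ne_zero.mpr hk0) hmk
      rw [h1, (fv v).map_neg] at h3
      have h4 := fv_sum_lt v (Finset.univ.filter (fun i : Fin (n + 1) => ¬ i.val < k)) x one_pos
        fun i hi => hlt i (not_lt.mp (Finset.mem_filter.mp hi).2)
      linarith
    · have h5 : ¬ ∃ j, fv v (x m) < fv v (x j) := fun h => hmk ((hk m).mp h)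
      push Not at h5
      have := h5 0
      rw [h01] at this
      exact le_antisymm (hle m) this

/-- truncation -/
def trunc {n : ℕ} (m : ℕ) (x : Fin (n + 1) → K) : Fin (n + 1) → K :=
  fun i => if i.val < m then x i else 0

lemma psum_trunc {n : ℕ} (x : Fin (n + 1) → K) {k m : ℕ} (h : k ≤ m) :
    psum (trunc m x) k = psum x k := by
  unfold psum trunc
  refine Finset.sum_congr rfl fun i hi => ?_
  have := (Finset.mem_filter.mp hi).2
  rw [if_pos (by omega)]

/-- **Core counting theorem.** -/
theorem core (n : ℕ) (T0 : Finset (HeightOneSpectrum (𝓞 K))) {δ : ℝ} (hδ : 0 < δ) :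
    ∃ C : ℝ, 0 < C ∧ ∀ Y G : ℝ, 0 ≤ Y → 0 ≤ G →
      ∀ (E : Finset (Fin (n + 1) → K)) (U : (Fin (n + 1) → K) → Finset (HeightOneSpectrum (𝓞 K))),
      (∀ x ∈ E, x 0 = 1) → (∀ x ∈ E, ∑ i, x i = 0) → (∀ x ∈ E, ∀ i, x i ≠ 0) →
      (∀ x ∈ E, ∀ k : ℕ, 1 ≤ k → k ≤ n → psum x k ≠ 0) →
      (∀ x ∈ E, ∀ i, logHeight₁ (x i) ≤ Y) →
      (∀ x ∈ E, ∑ v ∈ U x, ell v ≤ G) →
      (∀ x ∈ E, ∀ v, v ∉ T0 → v ∉ U x → Seg v x) →
      (E.card : ℝ) ≤ C * Real.exp ((1 + δ) * G + δ * Y) := by
  classical
  set R : ℝ := (n + 1) * (1 + 2 * (n + 1) * (n + 1)) with hR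
  have hR1 : 0 < R := by positivity
  set δ2 : ℝ := δ / (2 * R) with hδ2
  have hδ20 : 0 < δ2 := by positivity
  obtain ⟨C1, hC1, h1⟩ := set_count (K := K) (δ := δ / 2) (by positivity)
  obtain ⟨C2, hC2, h2⟩ := funit_count (K := K) (δ := δ2) hδ20
  set W0 : ℝ := ∑ v ∈ T0, ell v with hW0
  have hW00 : 0 ≤ W0 := Finset.sum_nonneg fun v _ => (ell_pos v).le
  set L : ℝ := (totalWeight K : ℝ) * Real.log (n + 1) with hL
  have hL0 : 0 ≤ L := mul_nonneg (Nat.cast_nonneg _) (Real.log_nonneg (by
    have : (0 : ℝ) ≤ n := Nat.cast_nonneg _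
    linarith))
  refine ⟨C1 * ((C2 + 1) * Real.exp (δ2 * (W0 + 2 * (n + 1) * L))) ^ (n + 1), by positivity,
    fun Y G hY hG E U hE0 hEs hEne hEp hEh hEw hEseg => ?_⟩
  set M : ℝ := (C2 + 1) * Real.exp (δ2 * (Y + (W0 + G + 2 * (n + 1) * (L + (n + 1) * Y)))) with hM
  have hM1 : 1 ≤ M := by
    have h3 : 1 ≤ Real.exp (δ2 * (Y + (W0 + G + 2 * (n + 1) * (L + (n + 1) * Y)))) :=
      Real.one_le_exp (by positivity)
    nlinarith
  set g : ℕ → (Fin (n + 1) → K) → Finset (HeightOneSpectrum (𝓞 K)) × (Fin (n + 1) → K) :=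
    fun m x => (U x, trunc m x) with hg
  -- heights of initial sums
  have hps : ∀ x ∈ E, ∀ k, logHeight₁ (psum x k) ≤ L + (n + 1) * Y := by
    intro x hx k
    refine (logHeight₁_sum_le _ _).trans ?_
    have hcard : (Finset.univ.filter (fun i : Fin (n + 1) => i.val < k)).card ≤ n + 1 := by
      refine (Finset.card_le_univ _).trans ?_
      rw [Fintype.card_fin]
    refine add_le_add ?_ ?_
    · rw [hL]
      refine mul_le_mul_of_nonneg_left ?_ (Nat.cast_nonneg _)
      rcases Nat.eq_zero_or_pos
        (Finset.univ.filter (fun i : Fin (n + 1) => i.val < k)).card with h | h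
      · rw [h, Nat.cast_zero, Real.log_zero]
        exact Real.log_nonneg (by
          have : (0 : ℝ) ≤ n := Nat.cast_nonneg _
          linarith)
      · refine Real.log_le_log (by exact_mod_cast h) ?_
        exact_mod_cast hcard
    · calc ∑ i ∈ Finset.univ.filter (fun i : Fin (n + 1) => i.val < k), logHeight₁ (x i)
          ≤ ∑ _i ∈ Finset.univ.filter (fun i : Fin (n + 1) => i.val < k), Y :=
            Finset.sum_le_sum fun i _ => hEh x hx i
        _ ≤ (n + 1) * Y := by
            rw [Finset.sum_const, nsmul_eq_mul]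
            refine mul_le_mul_of_nonneg_right ?_ hY
            exact_mod_cast hcard
  -- one step
  have hstep : ∀ m : ℕ, 1 ≤ m → m < n → ((E.image (g (m + 1))).card : ℝ) ≤
      M * ((E.image (g m)).card : ℝ) := by
    intro m hm1 hmn
    have hmlt : m < n + 1 := by omega
    set tr : Finset (HeightOneSpectrum (𝓞 K)) × (Fin (n + 1) → K) →
        Finset (HeightOneSpectrum (𝓞 K)) × (Fin (n + 1) → K) := fun p => (p.1, trunc m p.2) with htr
    have htrg : ∀ x, tr (g (m + 1) x) = g m x := by
      intro x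
      rw [htr, hg]
      simp only [Prod.mk.injEq, true_and]
      funext i
      unfold trunc
      by_cases hi : i.val < m
      · rw [if_pos hi, if_pos (by omega), if_pos hi]
      · rw [if_neg hi, if_neg hi]
    have hfib : ∀ a ∈ E.image (g m),
        ((E.image (g (m + 1))).filter (fun b => tr b = a)).card ≤ ⌊M⌋₊ := by
      intro a ha
      obtain ⟨x₀, hx₀, rfl⟩ := Finset.mem_image.mp ha
      -- the primes
      set Q : Finset (HeightOneSpectrum (𝓞 K)) := (Finset.Icc 1 m).biUnion (fun k =>
        if h : psum x₀ k ≠ 0 then (fv_support_finite h).toFinset else ∅) with hQ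
      set F : Finset (HeightOneSpectrum (𝓞 K)) := T0 ∪ (U x₀ ∪ Q) with hF
      have hwQ : ∑ v ∈ Q, ell v ≤ 2 * (n + 1) * (L + (n + 1) * Y) := by
        have hnn : 0 ≤ L + (n + 1) * Y := by positivity
        calc ∑ v ∈ Q, ell v ≤ ∑ k ∈ Finset.Icc 1 m, ∑ v ∈ (if h : psum x₀ k ≠ 0 then
              (fv_support_finite h).toFinset else ∅), ell v := by
                exact sum_biUnion_le' _ _ _ fun v => (ell_pos v).le
          _ ≤ ∑ k ∈ Finset.Icc 1 m, 2 * (L + (n + 1) * Y) := by
                refine Finset.sum_le_sum fun k hk => ?_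
                rw [Finset.mem_Icc] at hk
                have hne := hEp x₀ hx₀ k hk.1 (by omega)
                rw [dif_pos hne]
                refine (weight_le hne _ fun v hv => ?_).trans ?_
                · rw [Set.Finite.mem_toFinset] at hv
                  exact hv
                · have := hps x₀ hx₀ k
                  linarith
          _ ≤ 2 * (n + 1) * (L + (n + 1) * Y) := by
                rw [Finset.sum_const, nsmul_eq_mul, Nat.card_Icc]
                have h5 : ((m + 1 - 1 : ℕ) : ℝ) ≤ n + 1 := by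
                  have : (m + 1 - 1 : ℕ) ≤ n + 1 := by omega
                  exact_mod_cast this
                nlinarith
      have hwF : ∑ v ∈ F, ell v ≤ W0 + G + 2 * (n + 1) * (L + (n + 1) * Y) := by
        have hun : ∀ A B : Finset (HeightOneSpectrum (𝓞 K)),
            ∑ v ∈ A ∪ B, ell v ≤ ∑ v ∈ A, ell v + ∑ v ∈ B, ell v := by
          intro A B
          rw [← Finset.sum_union_inter]
          have : 0 ≤ ∑ v ∈ A ∩ B, ell v := Finset.sum_nonneg fun v _ => (ell_pos v).le
          linarith
        have e1 := hun T0 (U x₀ ∪ Q)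
        have e2 := hun (U x₀) Q
        have e3 := hEw x₀ hx₀
        rw [hF]
        linarith
      -- the new coordinates
      set N : Finset K := (E.filter (fun x => g m x = g m x₀)).image (fun x => x ⟨m, hmlt⟩) with hN
      have hNcard : (N.card : ℝ) ≤ M := by
        have h6 := h2 F Y hY N ?_
        · refine h6.trans ?_
          rw [hM]
          refine mul_le_mul (by linarith) (Real.exp_le_exp.mpr ?_) (Real.exp_pos _).le (by linarith)
          refine mul_le_mul_of_nonneg_left ?_ hδ20.le
          linarith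
        · intro u hu
          obtain ⟨x, hx, rfl⟩ := Finset.mem_image.mp hu
          rw [Finset.mem_filter] at hx
          refine ⟨hEne x hx.1 _, hEh x hx.1 _, fun v hv => ?_⟩
          have hgx : U x = U x₀ ∧ trunc m x = trunc m x₀ := by
            have := hx.2
            rw [hg] at this
            simpa only [Prod.mk.injEq] using this
          rw [hF, Finset.mem_union, Finset.mem_union, not_or, not_or] at hv
          refine coord_unit v x (hE0 x hx.1) (hEs x hx.1)
            (hEseg x hx.1 v hv.1 (by rw [hgx.1]; exact hv.2.1)) ⟨m, hmlt⟩ fun k hk1 hkm => ?_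
          have hpe : psum x k = psum x₀ k := by
            rw [← psum_trunc x hkm, ← psum_trunc x₀ hkm, hgx.2]
          rw [hpe]
          by_contra hcon
          refine hv.2.2 ?_
          rw [hQ, Finset.mem_biUnion]
          have hkm' : k ≤ m := hkm
          refine ⟨k, Finset.mem_Icc.mpr ⟨hk1, hkm'⟩, ?_⟩
          have hne := hEp x₀ hx₀ k hk1 (by omega)
          rw [dif_pos hne, Set.Finite.mem_toFinset]
          exact hcon
      have hle : ((E.image (g (m + 1))).filter (fun b => tr b = g m x₀)).card ≤ N.card := by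
        refine Finset.card_le_card_of_injOn (fun b => b.2 ⟨m, hmlt⟩) ?_ ?_
        · intro b hb
          rw [Finset.mem_coe, Finset.mem_filter] at hb
          obtain ⟨x, hx, hxb⟩ := Finset.mem_image.mp hb.1
          rw [Finset.mem_coe, hN, Finset.mem_image]
          refine ⟨x, Finset.mem_filter.mpr ⟨hx, ?_⟩, ?_⟩
          · rw [← htrg x, hxb]; exact hb.2
          · rw [← hxb, hg]
            simp only
            unfold trunc
            rw [if_pos (by simp)]
        · intro b hb b' hb' hbb
          rw [Finset.mem_coe, Finset.mem_filter] at hb hb'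
          obtain ⟨x, hx, hxb⟩ := Finset.mem_image.mp hb.1
          obtain ⟨x', hx', hxb'⟩ := Finset.mem_image.mp hb'.1
          have e1 : g m x = g m x₀ := by rw [← htrg x, hxb]; exact hb.2
          have e2 : g m x' = g m x₀ := by rw [← htrg x', hxb']; exact hb'.2
          have e3 : g m x = g m x' := e1.trans e2.symm
          have e4 : U x = U x' ∧ trunc m x = trunc m x' := by
            rw [hg] at e3
            simpa only [Prod.mk.injEq] using e3
          rw [← hxb, ← hxb'] at hbb ⊢
          rw [hg] at hbb ⊢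
          simp only [Prod.mk.injEq] at hbb ⊢
          refine ⟨e4.1, ?_⟩
          funext i
          rcases lt_trichotomy i.val m with hi | hi | hi
          · have := congrFun e4.2 i
            unfold trunc at this ⊢
            rw [if_pos hi, if_pos hi] at this
            rw [if_pos (by omega), if_pos (by omega), this]
          · have hi' : i = ⟨m, hmlt⟩ := Fin.ext hi
            rw [hi']; exact hbb
          · unfold trunc
            rw [if_neg (by omega), if_neg (by omega)]
      exact hle.trans (Nat.le_floor hNcard)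
    have hcard := Finset.card_le_mul_card_image_of_maps_to (s := E.image (g (m + 1)))
      (t := E.image (g m)) (f := tr) (fun b hb => by
        obtain ⟨x, hx, rfl⟩ := Finset.mem_image.mp hb
        rw [htrg x]; exact Finset.mem_image_of_mem _ hx) ⌊M⌋₊ hfib
    calc ((E.image (g (m + 1))).card : ℝ) ≤ (⌊M⌋₊ : ℝ) * ((E.image (g m)).card : ℝ) := by
          exact_mod_cast hcard
      _ ≤ M * ((E.image (g m)).card : ℝ) :=
          mul_le_mul_of_nonneg_right (Nat.floor_le (by linarith)) (Nat.cast_nonneg _)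
  -- the first step
  have hfirst : ((E.image (g 1)).card : ℝ) ≤ C1 * Real.exp ((1 + δ / 2) * G) := by
    have h3 : (E.image (g 1)).card ≤ (E.image U).card := by
      refine Finset.card_le_card_of_injOn (fun b => b.1) ?_ ?_
      · intro b hb
        obtain ⟨x, hx, rfl⟩ := Finset.mem_image.mp (Finset.mem_coe.mp hb)
        exact Finset.mem_coe.mpr (Finset.mem_image_of_mem _ hx)
      · intro b hb b' hb' hbb
        obtain ⟨x, hx, rfl⟩ := Finset.mem_image.mp (Finset.mem_coe.mp hb)
        obtain ⟨x', hx', rfl⟩ := Finset.mem_image.mp (Finset.mem_coe.mp hb')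
        rw [hg] at hbb ⊢
        simp only [Prod.mk.injEq] at hbb ⊢
        refine ⟨hbb, ?_⟩
        funext i
        unfold trunc
        by_cases hi : i.val < 1
        · have hi' : i = 0 := Fin.ext (by simpa using hi)
          rw [if_pos hi, if_pos hi, hi', hE0 x hx, hE0 x' hx']
        · rw [if_neg hi, if_neg hi]
    refine le_trans (by exact_mod_cast h3) (h1 G (E.image U) ?_)
    intro V hV
    obtain ⟨x, hx, rfl⟩ := Finset.mem_image.mp hV
    exact hEw x hx
  -- iteration
  have hiter : ∀ m : ℕ, 1 ≤ m → m ≤ n → ((E.image (g m)).card : ℝ) ≤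
      M ^ (m - 1) * (C1 * Real.exp ((1 + δ / 2) * G)) := by
    intro m hm1
    induction m, hm1 using Nat.le_induction with
    | base => intro _; simpa using hfirst
    | succ m hm ih =>
      intro hmn
      have h3 := ih (by omega)
      have h4 := hstep m hm (by omega)
      refine h4.trans ?_
      have h5 : m + 1 - 1 = (m - 1) + 1 := by omega
      have h6 : M ^ (m + 1 - 1) * (C1 * Real.exp ((1 + δ / 2) * G)) =
          M * (M ^ (m - 1) * (C1 * Real.exp ((1 + δ / 2) * G))) := by
        rw [h5, pow_succ' M (m - 1), mul_assoc M (M ^ (m - 1))]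
      rw [h6]
      exact mul_le_mul_of_nonneg_left h3 (zero_le_one.trans hM1)
  have hMn : ∀ k : ℕ, k ≤ n + 1 → M ^ k ≤ M ^ (n + 1) := fun k hk => pow_le_pow_right₀ hM1 hk
  have hfinal : (E.card : ℝ) ≤ M ^ (n + 1) * (C1 * Real.exp ((1 + δ / 2) * G)) := by
    have hpos : 0 < C1 * Real.exp ((1 + δ / 2) * G) := by positivity
    rcases Nat.eq_zero_or_pos n with hn | hn
    · have hE1 : E.card ≤ (E.image (g 1)).card := by
        refine le_of_eq (Finset.card_image_of_injOn ?_).symm
        intro x hx x' hx' hxx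
        rw [hg] at hxx
        simp only [Prod.mk.injEq] at hxx
        funext i
        have := congrFun hxx.2 i
        unfold trunc at this
        rwa [if_pos (by omega), if_pos (by omega)] at this
      have h3 : (1 : ℝ) ≤ M ^ (n + 1) := one_le_pow₀ hM1
      calc (E.card : ℝ) ≤ ((E.image (g 1)).card : ℝ) := by exact_mod_cast hE1
        _ ≤ C1 * Real.exp ((1 + δ / 2) * G) := hfirst
        _ ≤ M ^ (n + 1) * (C1 * Real.exp ((1 + δ / 2) * G)) :=
            le_mul_of_one_le_left hpos.le h3
    · have hE1 : E.card ≤ (E.image (g n)).card := by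
        refine le_of_eq (Finset.card_image_of_injOn ?_).symm
        intro x hx x' hx' hxx
        rw [hg] at hxx
        simp only [Prod.mk.injEq] at hxx
        have hlt : ∀ i : Fin (n + 1), i.val < n → x i = x' i := by
          intro i hi
          have := congrFun hxx.2 i
          unfold trunc at this
          rwa [if_pos hi, if_pos hi] at this
        funext i
        by_cases hi : i.val < n
        · exact hlt i hi
        · have hi' : i = Fin.last n := Fin.ext (by simp; omega)
          have s1 := hEs x hx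
          have s2 := hEs x' hx'
          rw [Fin.sum_univ_castSucc] at s1 s2
          have s3 : ∑ i : Fin n, x i.castSucc = ∑ i : Fin n, x' i.castSucc :=
            Finset.sum_congr rfl fun i _ => hlt _ (by simp)
          rw [hi']
          rw [s3] at s1
          have s4 : x (Fin.last n) = x' (Fin.last n) := by
            have := s1.trans s2.symm
            exact add_left_cancel this
          exact s4
      calc (E.card : ℝ) ≤ ((E.image (g n)).card : ℝ) := by exact_mod_cast hE1
        _ ≤ M ^ (n - 1) * (C1 * Real.exp ((1 + δ / 2) * G)) := hiter n hn le_rfl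
        _ ≤ M ^ (n + 1) * (C1 * Real.exp ((1 + δ / 2) * G)) :=
            mul_le_mul_of_nonneg_right (hMn _ (by omega)) hpos.le
  refine hfinal.trans ?_
  -- exponents
  have hMexp : M ^ (n + 1) = ((C2 + 1) * Real.exp (δ2 * (W0 + 2 * (n + 1) * L))) ^ (n + 1) *
      Real.exp ((n + 1) * (δ2 * (G + (1 + 2 * (n + 1) * (n + 1)) * Y))) := by
    rw [hM]
    have h3 : δ2 * (Y + (W0 + G + 2 * (n + 1) * (L + (n + 1) * Y))) =
        δ2 * (W0 + 2 * (n + 1) * L) + δ2 * (G + (1 + 2 * (n + 1) * (n + 1)) * Y) := by ring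
    rw [h3, Real.exp_add, ← mul_assoc, mul_pow, ← Real.exp_nat_mul]
    push_cast
    rfl
  rw [hMexp]
  have h4 : (n + 1) * (δ2 * (G + (1 + 2 * (n + 1) * (n + 1)) * Y)) + (1 + δ / 2) * G ≤
      (1 + δ) * G + δ * Y := by
    have h5 : (n + 1) * (δ2 * ((1 + 2 * (n + 1) * (n + 1)) * Y)) = δ / 2 * Y := by
      rw [hδ2, hR]; field_simp
    have h6 : (n + 1) * (δ2 * G) ≤ δ / 2 * G := by
      have h7 : ((n : ℝ) + 1) * δ2 ≤ δ / 2 := by
        have h8 : ((n : ℝ) + 1) ≤ R := by
          rw [hR]
          have h12 : (0 : ℝ) ≤ 2 * (n + 1) * (n + 1) := by positivity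
          exact le_mul_of_one_le_right (by positivity) (by linarith)
        have h11 : R * δ2 = δ / 2 := by rw [hδ2]; field_simp
        rw [← h11]
        exact mul_le_mul_of_nonneg_right h8 hδ20.le
      calc ((n : ℝ) + 1) * (δ2 * G) = ((n : ℝ) + 1) * δ2 * G := by ring
        _ ≤ δ / 2 * G := mul_le_mul_of_nonneg_right h7 hG
    have h9 : 0 ≤ δ / 2 * Y := by positivity
    have h10 : (n + 1) * (δ2 * (G + (1 + 2 * (n + 1) * (n + 1)) * Y)) =
        (n + 1) * (δ2 * G) + (n + 1) * (δ2 * ((1 + 2 * (n + 1) * (n + 1)) * Y)) := by ring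
    rw [h10, h5]
    linarith
  calc ((C2 + 1) * Real.exp (δ2 * (W0 + 2 * (n + 1) * L))) ^ (n + 1) *
      Real.exp ((n + 1) * (δ2 * (G + (1 + 2 * (n + 1) * (n + 1)) * Y))) *
      (C1 * Real.exp ((1 + δ / 2) * G))
      = C1 * ((C2 + 1) * Real.exp (δ2 * (W0 + 2 * (n + 1) * L))) ^ (n + 1) *
        Real.exp ((n + 1) * (δ2 * (G + (1 + 2 * (n + 1) * (n + 1)) * Y)) + (1 + δ / 2) * G) := by
        rw [Real.exp_add]; ring
    _ ≤ _ := mul_le_mul_of_nonneg_left (Real.exp_le_exp.mpr h4) (by positivity)

end Pool.Agent.H951R3.V
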