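import Pool.Agent.H951R3.V.V3

set_option autoImplicit false

/-!
Averaging over all orderings of the coordinates.
-/

namespace Pool.Agent.H951R3.V

open NumberField IsDedekindDomain Height Pool.Agent.H691R3

variable {K : Type*} [Field K] [NumberField K]

/-- the set of coordinates which are `v`-adically small -/
noncomputable def small {n : ℕ} (v : HeightOneSpectrum (𝓞 K)) (x : Fin n → K) : Finset (Fin n) :=
  open Classical in Finset.univ.filter (fun i => ∃ j, fv v (x i) < fv v (x j))

lemma mem_small {n : ℕ} (v : HeightOneSpectrum (𝓞 K)) (x : Fin n → K) (i : Fin n) :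
    i ∈ small v x ↔ ∃ j, fv v (x i) < fv v (x j) := by
  unfold small
  simp

/-- the set of primes where the coordinates do not have the same absolute value is finite -/
lemma neq_finite {n : ℕ} (x : Fin n → K) (hx : ∀ i, x i ≠ 0) :
    {v : HeightOneSpectrum (𝓞 K) | ∃ i j, fv v (x i) ≠ fv v (x j)}.Finite := by
  have h : {v : HeightOneSpectrum (𝓞 K) | ∃ i j, fv v (x i) ≠ fv v (x j)} ⊆
      ⋃ i, {v : HeightOneSpectrum (𝓞 K) | fv v (x i) ≠ 1} := by
    intro v hv
    obtain ⟨i, j, hij⟩ := hv
    rw [Set.mem_iUnion]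
    by_contra hcon
    push Not at hcon
    have h1 : fv v (x i) = 1 := by
      have := hcon i
      simpa using this
    have h2 : fv v (x j) = 1 := by
      have := hcon j
      simpa using this
    exact hij (h1.trans h2.symm)
  exact (Set.finite_iUnion fun i => fv_support_finite (hx i)).subset h

/-- many numberings have a given prefix -/
lemma card_prefixed_ge (n : ℕ) (s : Finset (Fin n)) :
    (n.factorial : ℝ) / (n.choose (n / 2)) ≤ ((Numbering.prefixed s).card : ℝ) := by
  have hs : s.card ≤ n := by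
    have := s.card_le_univ
    rwa [Fintype.card_fin] at this
  have h1 := Numbering.card_prefixed s
  rw [Fintype.card_fin] at h1
  have h2 := Nat.choose_mul_factorial_mul_factorial hs
  have h3 : n.choose s.card ≤ n.choose (n / 2) := Nat.choose_le_middle _ _
  have h4 : 0 < n.choose (n / 2) := Nat.choose_pos (Nat.div_le_self n 2)
  rw [div_le_iff₀ (by exact_mod_cast h4)]
  have h5 : n.factorial ≤ (Numbering.prefixed s).card * n.choose (n / 2) := by
    rw [h1]
    calc n.factorial = n.choose s.card * s.card.factorial * (n - s.card).factorial := h2.symm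
      _ = (s.card.factorial * (n - s.card).factorial) * n.choose s.card := by ring
      _ ≤ (s.card.factorial * (n - s.card).factorial) * n.choose (n / 2) :=
          Nat.mul_le_mul_left _ h3
  exact_mod_cast h5

/-- averaging -/
lemma exists_numbering {n : ℕ} (R : Finset (HeightOneSpectrum (𝓞 K)))
    (A : HeightOneSpectrum (𝓞 K) → Finset (Fin n)) :
    ∃ f : Numbering (Fin n), ∑ v ∈ R.filter (fun v => ¬ Numbering.IsPrefix f (A v)), ell v ≤
      (1 - 1 / (n.choose (n / 2) : ℝ)) * ∑ v ∈ R, ell v := by
  classical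
  set W : ℝ := ∑ v ∈ R, ell v with hW
  set α : ℝ := (n.choose (n / 2) : ℝ) with hα
  have hsplit : ∀ f : Numbering (Fin n),
      ∑ v ∈ R.filter (fun v => Numbering.IsPrefix f (A v)), ell v +
      ∑ v ∈ R.filter (fun v => ¬ Numbering.IsPrefix f (A v)), ell v = W :=
    fun f => Finset.sum_filter_add_sum_filter_not _ _ _
  by_contra hcon
  push Not at hcon
  have h1 : ∀ f : Numbering (Fin n),
      ∑ v ∈ R.filter (fun v => Numbering.IsPrefix f (A v)), ell v < 1 / α * W := by
    intro f
    have h2 := hsplit f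
    have h3 := hcon f
    nlinarith
  have hcard : (Finset.univ : Finset (Numbering (Fin n))).card = n.factorial := by
    rw [Finset.card_univ, Fintype.card_numbering, Fintype.card_fin]
  have hne : (Finset.univ : Finset (Numbering (Fin n))).Nonempty := by
    rw [← Finset.card_pos, hcard]
    exact Nat.factorial_pos n
  have h2 : ∑ f : Numbering (Fin n), ∑ v ∈ R.filter (fun v => Numbering.IsPrefix f (A v)), ell v <
      ∑ _f : Numbering (Fin n), 1 / α * W := Finset.sum_lt_sum_of_nonempty hne fun f _ => h1 f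
  rw [Finset.sum_const, hcard, nsmul_eq_mul] at h2
  have h3 : ∑ f : Numbering (Fin n), ∑ v ∈ R.filter (fun v => Numbering.IsPrefix f (A v)), ell v =
      ∑ v ∈ R, ((Numbering.prefixed (A v)).card : ℝ) * ell v := by
    simp_rw [Finset.sum_filter]
    rw [Finset.sum_comm]
    refine Finset.sum_congr rfl fun v _ => ?_
    rw [← Finset.sum_filter, Finset.sum_const, nsmul_eq_mul]
    rfl
  have h4 : (n.factorial : ℝ) / α * W ≤ ∑ v ∈ R, ((Numbering.prefixed (A v)).card : ℝ) * ell v := by
    rw [hW, Finset.mul_sum]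
    exact Finset.sum_le_sum fun v _ =>
      mul_le_mul_of_nonneg_right (card_prefixed_ge n (A v)) (ell_pos v).le
  rw [h3] at h2
  have h5 : (n.factorial : ℝ) * (1 / α * W) = (n.factorial : ℝ) / α * W := by ring
  rw [h5] at h2
  linarith

lemma logHeight₁_div_le {n : ℕ} (x : Fin n → K) (a b : Fin n) :
    logHeight₁ (x a / x b) ≤ logHeight x := by
  rw [logHeight₁_div_eq_logHeight]
  have h := logHeight_comp_le ![a, b] x
  have h2 : x ∘ ![a, b] = ![x a, x b] := by
    funext i
    fin_cases i <;> rfl
  rwa [h2] at h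

/-- The counting theorem for normalised tuples, ordered by a fixed numbering. -/
theorem main_count (m : ℕ) (S : Set (HeightOneSpectrum (𝓞 K))) (hS : S.Finite) {θ c δ : ℝ}
    (hθ : 0 ≤ θ) (hδ : 0 < δ) :
    ∃ C : ℝ, 0 < C ∧ ∀ B : ℝ, 1 ≤ B → ∀ E : Finset (Fin (m + 1) → K),
      (∀ x ∈ E, ∑ i, x i = 0) →
      (∀ x ∈ E, ∀ I : Finset (Fin (m + 1)), I.Nonempty → I ≠ Finset.univ → ∑ i ∈ I, x i ≠ 0) →
      (∀ x ∈ E, ∀ i, x i ≠ 0) →
      (∀ x ∈ E, ∀ y ∈ E, ∀ t : K, t ≠ 0 → x = t • y → x = y) →
      (∀ x ∈ E, logHeight x ≤ Real.log B) →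
      (∀ x ∈ E, ∀ R : Finset (HeightOneSpectrum (𝓞 K)),
        (∀ v ∈ R, v ∉ S ∧ ∃ i j, fv v (x i) ≠ fv v (x j)) →
          ∑ v ∈ R, ell v ≤ θ * logHeight x + c) →
      (E.card : ℝ) ≤ C * B ^ (θ * (1 - 1 / ((m + 1).choose ((m + 1) / 2) : ℝ)) + δ) := by
  classical
  set α : ℝ := ((m + 1).choose ((m + 1) / 2) : ℝ) with hα
  have hα1 : 1 ≤ α := by
    have h4 : 0 < (m + 1).choose ((m + 1) / 2) := Nat.choose_pos (Nat.div_le_self _ 2)
    rw [hα]
    exact_mod_cast h4
  set ρ : ℝ := 1 - 1 / α with hρ
  have hρ0 : 0 ≤ ρ := by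
    rw [hρ, sub_nonneg, div_le_one (by linarith)]
    exact hα1
  have hρ1 : ρ ≤ 1 := by
    rw [hρ]
    have : 0 ≤ 1 / α := by positivity
    linarith
  set δ' : ℝ := δ / (θ + 1) with hδ'
  have hδ'0 : 0 < δ' := by positivity
  obtain ⟨C, hC, hcore⟩ := core (K := K) m hS.toFinset hδ'0
  set n1 : ℕ := Fintype.card (Numbering (Fin (m + 1))) with hn1
  refine ⟨(n1 + 1) * (C * Real.exp ((1 + δ') * |c|)), by positivity,
    fun B hB E hEs hEI hEne hEinj hEh hEw => ?_⟩
  have hlogB : 0 ≤ Real.log B := Real.log_nonneg hB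
  have hB0 : 0 < B := by linarith
  -- the primes of a tuple
  have hRfin : ∀ x : Fin (m + 1) → K, (∀ i, x i ≠ 0) →
      {v : HeightOneSpectrum (𝓞 K) | v ∉ S ∧ ∃ i j, fv v (x i) ≠ fv v (x j)}.Finite :=
    fun x hx => (neq_finite x hx).subset fun v hv => hv.2
  set Rx : (Fin (m + 1) → K) → Finset (HeightOneSpectrum (𝓞 K)) := fun x =>
    if h : ∀ i, x i ≠ 0 then (hRfin x h).toFinset else ∅ with hRx
  have hmemRx : ∀ x : Fin (m + 1) → K, (∀ i, x i ≠ 0) → ∀ v, v ∈ Rx x ↔
      v ∉ S ∧ ∃ i j, fv v (x i) ≠ fv v (x j) := by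
    intro x hx v
    rw [hRx]
    simp only
    rw [dif_pos hx, Set.Finite.mem_toFinset]
    rfl
  -- choice of a numbering
  choose num hnum using fun x : Fin (m + 1) → K =>
    exists_numbering (Rx x) (fun v => (small v x)ᶜ)
  set G : ℝ := ρ * (θ * Real.log B) + |c| with hG
  have hG0 : 0 ≤ G := by positivity
  -- one class
  have hclass : ∀ f : Numbering (Fin (m + 1)),
      ((E.filter (fun x => num x = f)).card : ℝ) ≤
        C * Real.exp ((1 + δ') * G + δ' * Real.log B) := by
    intro f
    set g : Fin (m + 1) ≃ Fin (m + 1) := f.trans (finCongr (Fintype.card_fin _)) with hg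
    set nrm : (Fin (m + 1) → K) → (Fin (m + 1) → K) :=
      fun x j => x (g.symm j) / x (g.symm 0) with hnrm
    set U : (Fin (m + 1) → K) → Finset (HeightOneSpectrum (𝓞 K)) :=
      fun y => (Rx y).filter (fun v => ¬ Seg v y) with hU
    have hinj : Set.InjOn nrm (E.filter (fun x => num x = f)) := by
      intro x hx y hy hxy
      rw [Finset.mem_coe, Finset.mem_filter] at hx hy
      refine hEinj x hx.1 y hy.1 (x (g.symm 0) / y (g.symm 0))
        (div_ne_zero (hEne x hx.1 _) (hEne y hy.1 _)) ?_
      funext i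
      have h1 := congrFun hxy (g i)
      simp only [hnrm, Equiv.symm_apply_apply] at h1
      have h2 := hEne x hx.1 (g.symm 0)
      have h3 := hEne y hy.1 (g.symm 0)
      rw [Pi.smul_apply, smul_eq_mul]
      field_simp at h1 ⊢
      linear_combination h1
    rw [← Finset.card_image_of_injOn hinj]
    refine hcore (Real.log B) G hlogB hG0 _ U ?_ ?_ ?_ ?_ ?_ ?_ ?_
    · intro y hy
      obtain ⟨x, hx, rfl⟩ := Finset.mem_image.mp hy
      exact div_self (hEne x (Finset.mem_filter.mp hx).1 _)
    · intro y hy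
      obtain ⟨x, hx, rfl⟩ := Finset.mem_image.mp hy
      simp only [hnrm]
      rw [← Finset.sum_div, Equiv.sum_comp g.symm x, hEs x (Finset.mem_filter.mp hx).1, zero_div]
    · intro y hy i
      obtain ⟨x, hx, rfl⟩ := Finset.mem_image.mp hy
      exact div_ne_zero (hEne x (Finset.mem_filter.mp hx).1 _) (hEne x (Finset.mem_filter.mp hx).1 _)
    · intro y hy k hk1 hkm
      obtain ⟨x, hx, rfl⟩ := Finset.mem_image.mp hy
      have hx' := (Finset.mem_filter.mp hx).1
      unfold psum
      simp only [hnrm]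
      rw [← Finset.sum_div]
      refine div_ne_zero ?_ (hEne x hx' _)
      have h1 : ∑ i ∈ Finset.univ.filter (fun i : Fin (m + 1) => i.val < k), x (g.symm i) =
          ∑ i ∈ (Finset.univ.filter (fun i : Fin (m + 1) => i.val < k)).map g.symm.toEmbedding,
            x i := by
        rw [Finset.sum_map]; rfl
      rw [h1]
      refine hEI x hx' _ ?_ ?_
      · rw [Finset.map_nonempty]
        exact ⟨0, Finset.mem_filter.mpr ⟨Finset.mem_univ _, by simp; omega⟩⟩
      · intro h2
        have h3 : g.symm ⟨m, by omega⟩ ∈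
            (Finset.univ.filter (fun i : Fin (m + 1) => i.val < k)).map g.symm.toEmbedding := by
          rw [h2]; exact Finset.mem_univ _
        rw [Finset.mem_map] at h3
        obtain ⟨i, hi, hi2⟩ := h3
        have h4 : i = ⟨m, by omega⟩ := g.symm.injective hi2
        rw [h4, Finset.mem_filter] at hi
        simp at hi
        omega
    · intro y hy i
      obtain ⟨x, hx, rfl⟩ := Finset.mem_image.mp hy
      have hx' := (Finset.mem_filter.mp hx).1
      exact (logHeight₁_div_le x _ _).trans (hEh x hx')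
    · intro y hy
      obtain ⟨x, hx, rfl⟩ := Finset.mem_image.mp hy
      obtain ⟨hx', hxf⟩ := Finset.mem_filter.mp hx
      have hyne : ∀ i, nrm x i ≠ 0 := fun i => div_ne_zero (hEne x hx' _) (hEne x hx' _)
      -- comparison of absolute values
      have hfv : ∀ (v : HeightOneSpectrum (𝓞 K)) (j : Fin (m + 1)),
          fv v (nrm x j) = fv v (x (g.symm j)) / fv v (x (g.symm 0)) := by
        intro v j
        simp only [hnrm]
        rw [map_div₀]
      have hfpos : ∀ (v : HeightOneSpectrum (𝓞 K)), 0 < fv v (x (g.symm 0)) :=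
        fun v => (fv v).pos (hEne x hx' _)
      have hsub : U (nrm x) ⊆ (Rx x).filter
          (fun v => ¬ Numbering.IsPrefix (num x) ((small v x)ᶜ)) := by
        intro v hv
        rw [hU, Finset.mem_filter, hmemRx _ hyne] at hv
        rw [Finset.mem_filter, hmemRx _ (hEne x hx')]
        obtain ⟨⟨hvS, i, j, hij⟩, hseg⟩ := hv
        refine ⟨⟨hvS, g.symm i, g.symm j, fun h => hij ?_⟩, fun hpre => hseg ?_⟩
        · rw [hfv, hfv, h]
        · right
          rw [hxf] at hpre
          refine ⟨((small v x)ᶜ).card, fun i => ?_⟩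
          have h1 := hpre (g.symm i)
          rw [Finset.mem_compl, mem_small] at h1
          have h2 : (∃ j, fv v (nrm x i) < fv v (nrm x j)) ↔
              ∃ j, fv v (x (g.symm i)) < fv v (x j) := by
            constructor
            · rintro ⟨j, hj⟩
              rw [hfv, hfv] at hj
              exact ⟨g.symm j, (div_lt_div_iff_of_pos_right (hfpos v)).mp hj⟩
            · rintro ⟨j, hj⟩
              refine ⟨g j, ?_⟩
              rw [hfv, hfv, Equiv.symm_apply_apply]
              exact (div_lt_div_iff_of_pos_right (hfpos v)).mpr hj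
          rw [h2]
          have h3 : ((f (g.symm i) : Fin (Fintype.card (Fin (m + 1)))) : ℕ) = i.val := by
            have h4 : g (g.symm i) = i := g.apply_symm_apply i
            have h5 : (g (g.symm i)).val = (f (g.symm i)).val := rfl
            rw [← h5, h4]
          rw [h3] at h1
          constructor
          · intro h
            by_contra hlt
            exact (h1.mpr (not_le.mp hlt)) h
          · intro h
            by_contra hne
            exact absurd (h1.mp hne) (not_lt.mpr h)
      calc ∑ v ∈ U (nrm x), ell v ≤ ∑ v ∈ (Rx x).filter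
            (fun v => ¬ Numbering.IsPrefix (num x) ((small v x)ᶜ)), ell v :=
            Finset.sum_le_sum_of_subset_of_nonneg hsub fun v _ _ => (ell_pos v).le
        _ ≤ ρ * ∑ v ∈ Rx x, ell v := hnum x
        _ ≤ ρ * (θ * logHeight x + c) := by
            refine mul_le_mul_of_nonneg_left ?_ hρ0
            exact hEw x hx' (Rx x) fun v hv => (hmemRx _ (hEne x hx') v).mp hv
        _ ≤ ρ * (θ * Real.log B + |c|) := by
            refine mul_le_mul_of_nonneg_left ?_ hρ0
            have h1 := mul_le_mul_of_nonneg_left (hEh x hx') hθ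
            have h2 := le_abs_self c
            linarith
        _ ≤ G := by
            rw [hG, mul_add]
            have h3 : ρ * |c| ≤ |c| := by
              have := abs_nonneg c
              nlinarith
            linarith
    · intro y hy v hvS hvU
      obtain ⟨x, hx, rfl⟩ := Finset.mem_image.mp hy
      have hx' := (Finset.mem_filter.mp hx).1
      have hyne : ∀ i, nrm x i ≠ 0 := fun i => div_ne_zero (hEne x hx' _) (hEne x hx' _)
      by_contra hseg
      rw [hU, Finset.mem_filter, not_and, not_not, hmemRx _ hyne] at hvU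
      refine hseg (hvU ⟨fun h => hvS ((Set.Finite.mem_toFinset hS).mpr h), ?_⟩)
      by_contra hcon
      push Not at hcon
      exact hseg (Or.inl hcon)
  -- sum over the classes
  have hsum : (E.card : ℝ) = ∑ f : Numbering (Fin (m + 1)),
      ((E.filter (fun x => num x = f)).card : ℝ) := by
    rw [Finset.card_eq_sum_card_fiberwise (f := num) (t := Finset.univ)
      (fun x _ => Finset.mem_coe.mpr (Finset.mem_univ _))]
    push_cast
    rfl
  have hexp : C * Real.exp ((1 + δ') * G + δ' * Real.log B) ≤
      C * Real.exp ((1 + δ') * |c|) * B ^ (θ * ρ + δ) := by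
    rw [Real.rpow_def_of_pos hB0, mul_assoc, ← Real.exp_add]
    refine mul_le_mul_of_nonneg_left (Real.exp_le_exp.mpr ?_) hC.le
    rw [hG]
    have h1 : δ' * (θ + 1) = δ := by rw [hδ']; field_simp
    have h2 : δ' * (ρ * (θ * Real.log B)) ≤ δ' * (θ * Real.log B) := by
      refine mul_le_mul_of_nonneg_left ?_ hδ'0.le
      have : 0 ≤ θ * Real.log B := by positivity
      nlinarith
    have h3 : δ' * (θ * Real.log B) + δ' * Real.log B = δ * Real.log B := by
      rw [← h1]; ring
    nlinarith
  calc (E.card : ℝ) = ∑ f : Numbering (Fin (m + 1)),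
      ((E.filter (fun x => num x = f)).card : ℝ) := hsum
    _ ≤ ∑ _f : Numbering (Fin (m + 1)), C * Real.exp ((1 + δ') * |c|) * B ^ (θ * ρ + δ) :=
        Finset.sum_le_sum fun f _ => (hclass f).trans hexp
    _ = n1 * (C * Real.exp ((1 + δ') * |c|) * B ^ (θ * ρ + δ)) := by
        rw [Finset.sum_const, nsmul_eq_mul, Finset.card_univ]
    _ ≤ (n1 + 1) * (C * Real.exp ((1 + δ') * |c|) * B ^ (θ * ρ + δ)) :=
        mul_le_mul_of_nonneg_right (by linarith) (by positivity)
    _ = (n1 + 1) * (C * Real.exp ((1 + δ') * |c|)) * B ^ (θ * ρ + δ) := by ring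

end Pool.Agent.H951R3.V
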